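import Pool.Agent.R399.TM.Cnt

/-!
# CZ/E2: the tail of the number of zeros near a point of the critical line

For the project CZ of helper784, by helper160.
-/

set_option autoImplicit false

namespace Pool.Agent.N160.CZ

open Finset Filter Topology Complex MeasureTheory
open Pool.Agent.R399.TW
open Pool.Agent.R399.TM (Dv dv_gen three)
open scoped ComplexConjugate

/-- the constant of the mean square -/
noncomputable def K1 (A : ℝ) (m : ℕ) : ℝ :=
  4 * A ^ 2 * (Real.exp 4 * Real.exp ((m : ℝ) ^ 2)) ^ 2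

lemma K1_ge {A : ℝ} (hA : 1 ≤ A) (m : ℕ) : 4 ≤ K1 A m := by
  unfold K1
  have h1 : (1 : ℝ) ≤ A ^ 2 := one_le_pow₀ hA
  have h2 : (1 : ℝ) ≤ (Real.exp 4 * Real.exp ((m : ℝ) ^ 2)) ^ 2 :=
    one_le_pow₀ (one_le_mul_of_one_le_of_one_le (Real.one_le_exp (by norm_num))
      (Real.one_le_exp (by positivity)))
  nlinarith

lemma one_pow_exp (x : ℝ) (n : ℕ) : (1 + |x|) ^ n ≤ Real.exp (n * |x|) := by
  rw [Real.exp_nat_mul]
  refine pow_le_pow_left₀ (by positivity) ?_ n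
  have := Real.add_one_le_exp |x|
  linarith

/-- the mean square in the strip -/
theorem ms {κ β C₁ A : ℝ} {E n : ℕ} (hκ : 1 ≤ κ) (hβ : 0 < β) (hC₁ : 0 ≤ C₁) (hA : 1 ≤ A)
    {ι : Type} (I : Finset ι) (F M : ι → ℂ → ℂ) {R P : ℝ} (hR : κ ≤ R)
    (hF : ∀ i, Differentiable ℂ (F i)) (hM : ∀ i, Differentiable ℂ (M i)) (hP : (I.card : ℝ) ≤ P)
    (h3 : ∀ i ∈ I, ∀ s : ℂ, 1 / 16 ≤ s.re →
      ‖F i s * M i s‖ ≤ A * Real.exp (C₁ * R) * (1 + |s.im|) ^ n)
    (h4 : ∀ s : ℂ, 1 / 2 + κ / R ≤ s.re → s.re ≤ 2 → ∑ i ∈ I, ‖F i s * M i s - 1‖ ^ 2 ≤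
      P * Real.exp (-(β * R * (s.re - 1 / 2))) * (1 + |s.im|) ^ E)
    {s : ℂ} (hs1 : 1 / 16 ≤ s.re) (hs2 : s.re ≤ 2) :
    ∑ i ∈ I, ‖F i s * M i s‖ ^ 2 ≤ K1 A (n + E) * P * (1 + |s.im|) ^ (2 * (n + E)) *
      Real.exp (32 / 7 * C₁ * (κ + R * max 0 (1 / 2 - s.re))) := by
  have hR0 : 0 < R := by linarith
  have hP0 : 0 ≤ P := (Nat.cast_nonneg _).trans hP
  have hK := K1_ge hA (n + E)
  set b : ℝ := 1 / 2 + κ / R with hb
  have hκR : κ / R ≤ 1 := (div_le_one hR0).2 hR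
  have hκR0 : 0 < κ / R := by positivity
  have hexp1 : 1 ≤ Real.exp (32 / 7 * C₁ * (κ + R * max 0 (1 / 2 - s.re))) := by
    apply Real.one_le_exp
    have : 0 ≤ max 0 (1 / 2 - s.re) := le_max_left _ _
    positivity
  have hbase : ∀ s : ℂ, b ≤ s.re → s.re ≤ 2 →
      ∑ i ∈ I, ‖F i s * M i s‖ ^ 2 ≤ 4 * P * (1 + |s.im|) ^ E := by
    intro s h5 h6
    have h7 := h4 s h5 h6
    have h8 : ∀ i ∈ I, ‖F i s * M i s‖ ^ 2 ≤ 2 * ‖F i s * M i s - 1‖ ^ 2 + 2 := by
      intro i _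
      have h9 : ‖F i s * M i s‖ ≤ ‖F i s * M i s - 1‖ + 1 := by
        have := norm_add_le (F i s * M i s - 1) 1
        rwa [sub_add_cancel, norm_one] at this
      have h10 := pow_le_pow_left₀ (norm_nonneg _) h9 2
      nlinarith [sq_nonneg (‖F i s * M i s - 1‖ - 1)]
    have h10 := Finset.sum_le_sum h8
    rw [Finset.sum_add_distrib, ← Finset.mul_sum, Finset.sum_const, nsmul_eq_mul] at h10
    have h11 : Real.exp (-(β * R * (s.re - 1 / 2))) ≤ 1 := by
      rw [Real.exp_le_one_iff]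
      have h12 : 0 ≤ s.re - 1 / 2 := by linarith
      have : 0 ≤ β * R * (s.re - 1 / 2) := by positivity
      linarith
    have h12 : (1 : ℝ) ≤ (1 + |s.im|) ^ E := one_le_pow₀ (by linarith [abs_nonneg s.im])
    have h13 : P * Real.exp (-(β * R * (s.re - 1 / 2))) * (1 + |s.im|) ^ E ≤
        P * 1 * (1 + |s.im|) ^ E := by gcongr
    have h14 : P * 1 ≤ P * (1 + |s.im|) ^ E := mul_le_mul_of_nonneg_left h12 hP0
    linarith
  rcases le_or_gt b s.re with hbs | hbs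
  · refine (hbase s hbs hs2).trans ?_
    have h5 : (1 + |s.im|) ^ E ≤ (1 + |s.im|) ^ (2 * (n + E)) :=
      pow_le_pow_right₀ (by linarith [abs_nonneg s.im]) (by omega)
    calc 4 * P * (1 + |s.im|) ^ E ≤ K1 A (n + E) * P * (1 + |s.im|) ^ (2 * (n + E)) := by gcongr
      _ = K1 A (n + E) * P * (1 + |s.im|) ^ (2 * (n + E)) * 1 := by ring
      _ ≤ _ := by
        refine mul_le_mul_of_nonneg_left hexp1 ?_
        have := K1_ge hA (n + E)
        positivity
  · rcases I.eq_empty_or_nonempty with rfl | hne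
    · rw [Finset.sum_empty]
      have := K1_ge hA (n + E)
      positivity
    have hP1 : 0 < P := lt_of_lt_of_le (by exact_mod_cast hne.card_pos) hP
    have hsP : 0 < √P := Real.sqrt_pos.2 hP1
    have key := three I (fun i s => F i s * M i s) (a := 1 / 16) (b := b)
      (A₀ := √P * (A * Real.exp (C₁ * R))) (A₁ := √P * 2) (n := n + E) (s := s) (by norm_num)
      (by linarith) (by linarith) (fun i _ => (hF i).mul (hM i)) (fun i hi => ?_)
      (by positivity) (by positivity) (fun t => ?_) (fun t => ?_) hs1 hbs.le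
    · set θ : ℝ := (s.re - 1 / 16) / (b - 1 / 16) with hθ
      have hb16 : 7 / 16 ≤ b - 1 / 16 := by linarith
      have hθ0 : 0 ≤ θ := div_nonneg (by linarith) (by linarith)
      have hθ1 : θ ≤ 1 := by
        rw [hθ, div_le_one (by linarith)]
        linarith
      have hW : (√P * (A * Real.exp (C₁ * R))) ^ (1 - θ) * (√P * 2) ^ θ ≤
          √P * (A * Real.exp (C₁ * R * (1 - θ)) * 2) := by
        rw [Real.mul_rpow hsP.le (by positivity), Real.mul_rpow hsP.le (by norm_num),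
          Real.mul_rpow (by linarith) (Real.exp_pos _).le, ← Real.exp_mul]
        have e1 : (√P) ^ (1 - θ) * (√P) ^ θ = √P := by
          rw [← Real.rpow_add hsP, sub_add_cancel, Real.rpow_one]
        have e2 : A ^ (1 - θ) ≤ A := by
          have := Real.rpow_le_rpow_of_exponent_le hA (show 1 - θ ≤ 1 by linarith)
          rwa [Real.rpow_one] at this
        have e3 : (2 : ℝ) ^ θ ≤ 2 := by
          have := Real.rpow_le_rpow_of_exponent_le (show (1 : ℝ) ≤ 2 by norm_num) hθ1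
          rwa [Real.rpow_one] at this
        have e4 : 0 ≤ A ^ (1 - θ) := Real.rpow_nonneg (by linarith) _
        calc (√P) ^ (1 - θ) * (A ^ (1 - θ) * Real.exp (C₁ * R * (1 - θ))) * ((√P) ^ θ * 2 ^ θ)
            = ((√P) ^ (1 - θ) * (√P) ^ θ) * (A ^ (1 - θ) * Real.exp (C₁ * R * (1 - θ)) * 2 ^ θ) := by
              ring
          _ = √P * (A ^ (1 - θ) * Real.exp (C₁ * R * (1 - θ)) * 2 ^ θ) := by rw [e1]
          _ ≤ _ := by gcongr
      have hW0 : 0 ≤ (√P * (A * Real.exp (C₁ * R))) ^ (1 - θ) * (√P * 2) ^ θ := by positivity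
      refine key.trans ?_
      have h5 : (Real.exp 4 * Real.exp (((n + E : ℕ) : ℝ) ^ 2) * (1 + |s.im|) ^ (n + E) *
          ((√P * (A * Real.exp (C₁ * R))) ^ (1 - θ) * (√P * 2) ^ θ)) ^ 2 ≤
          (Real.exp 4 * Real.exp (((n + E : ℕ) : ℝ) ^ 2) * (1 + |s.im|) ^ (n + E) *
          (√P * (A * Real.exp (C₁ * R * (1 - θ)) * 2))) ^ 2 := by gcongr
      refine h5.trans ?_
      have h6 : (Real.exp 4 * Real.exp (((n + E : ℕ) : ℝ) ^ 2) * (1 + |s.im|) ^ (n + E) *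
          (√P * (A * Real.exp (C₁ * R * (1 - θ)) * 2))) ^ 2 =
          K1 A (n + E) * P * (1 + |s.im|) ^ (2 * (n + E)) *
            Real.exp (C₁ * R * (1 - θ)) ^ 2 := by
        unfold K1
        rw [show 2 * (n + E) = (n + E) * 2 by ring, pow_mul]
        have e1 : √P ^ 2 = P := Real.sq_sqrt hP0
        calc _ = √P ^ 2 * (4 * A ^ 2 * (Real.exp 4 * Real.exp (((n + E : ℕ) : ℝ) ^ 2)) ^ 2 *
              ((1 + |s.im|) ^ (n + E)) ^ 2 * Real.exp (C₁ * R * (1 - θ)) ^ 2) := by ring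
          _ = _ := by rw [e1]; ring
      rw [h6]
      have hK0 : 0 ≤ K1 A (n + E) := by linarith [K1_ge hA (n + E)]
      refine mul_le_mul_of_nonneg_left ?_ (by positivity)
      rw [← Real.exp_nat_mul]
      refine Real.exp_le_exp.2 ?_
      have h7 : 1 - θ ≤ 16 / 7 * (b - s.re) := by
        have hne16 : b - 1 / 16 ≠ 0 := by linarith
        have e1 : 1 - θ = (b - s.re) / (b - 1 / 16) := by
          rw [hθ, eq_div_iff hne16, sub_mul, div_mul_cancel₀ _ hne16]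
          ring
        rw [e1, div_le_iff₀ (by linarith)]
        nlinarith
      have h8 : R * (b - s.re) ≤ κ + R * max 0 (1 / 2 - s.re) := by
        have e1 : R * (b - s.re) = κ + R * (1 / 2 - s.re) := by
          rw [hb]
          field_simp
          ring
        rw [e1]
        have := mul_le_mul_of_nonneg_left (le_max_right 0 (1 / 2 - s.re)) hR0.le
        linarith
      have h9 : R * (1 - θ) ≤ 16 / 7 * (κ + R * max 0 (1 / 2 - s.re)) := by
        calc R * (1 - θ) ≤ R * (16 / 7 * (b - s.re)) := mul_le_mul_of_nonneg_left h7 hR0.le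
          _ = 16 / 7 * (R * (b - s.re)) := by ring
          _ ≤ _ := mul_le_mul_of_nonneg_left h8 (by norm_num)
      push_cast
      calc 2 * (C₁ * R * (1 - θ)) = 2 * C₁ * (R * (1 - θ)) := by ring
        _ ≤ 2 * C₁ * (16 / 7 * (κ + R * max 0 (1 / 2 - s.re))) :=
          mul_le_mul_of_nonneg_left h9 (by positivity)
        _ = _ := by ring
    · refine ⟨(n : ℝ), A * Real.exp (C₁ * R), fun z hz => ?_⟩
      refine (h3 i hi z hz.1).trans ?_
      have := one_pow_exp z.im n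
      gcongr
    · have h5 : ∀ i ∈ I, ‖F i (pt (1 / 16) t) * M i (pt (1 / 16) t)‖ ^ 2 ≤
          (A * Real.exp (C₁ * R) * (1 + |t|) ^ n) ^ 2 := by
        intro i hi
        have := h3 i hi (pt (1 / 16) t) (by rw [pt_re])
        rw [pt_im] at this
        gcongr
      have h6 := Finset.sum_le_sum h5
      rw [Finset.sum_const, nsmul_eq_mul] at h6
      refine h6.trans ?_
      have h7 : (1 + |t|) ^ n ≤ (1 + |t|) ^ (n + E) :=
        pow_le_pow_right₀ (by linarith [abs_nonneg t]) (by omega)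
      calc (I.card : ℝ) * (A * Real.exp (C₁ * R) * (1 + |t|) ^ n) ^ 2
          ≤ P * (A * Real.exp (C₁ * R) * (1 + |t|) ^ (n + E)) ^ 2 := by gcongr
        _ = √P ^ 2 * (A * Real.exp (C₁ * R) * (1 + |t|) ^ (n + E)) ^ 2 := by
            rw [Real.sq_sqrt hP0]
        _ = _ := by ring
    · have h5 := hbase (pt b t) (by rw [pt_re]) (by rw [pt_re]; linarith)
      rw [pt_im] at h5
      refine h5.trans ?_
      have h7 : (1 + |t|) ^ E ≤ (1 + |t|) ^ ((n + E) * 2) :=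
        pow_le_pow_right₀ (by linarith [abs_nonneg t]) (by omega)
      calc 4 * P * (1 + |t|) ^ E ≤ 4 * P * (1 + |t|) ^ ((n + E) * 2) := by gcongr
        _ = 4 * √P ^ 2 * (1 + |t|) ^ ((n + E) * 2) := by rw [Real.sq_sqrt hP0]
        _ = _ := by rw [pow_mul]; ring

/-- many zeros, the middle range -/
theorem mid {κ β C₁ A : ℝ} {E n : ℕ} (hκ : 1 ≤ κ) (hβ : 0 < β) (hC₁ : 0 ≤ C₁) (hA : 1 ≤ A)
    {ι : Type} (I : Finset ι) (F M : ι → ℂ → ℂ) {R P : ℝ} (hR : κ ≤ R)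
    (hF : ∀ i, Differentiable ℂ (F i)) (hM : ∀ i, Differentiable ℂ (M i)) (hP : (I.card : ℝ) ≤ P)
    (h3 : ∀ i ∈ I, ∀ s : ℂ, 1 / 16 ≤ s.re →
      ‖F i s * M i s‖ ≤ A * Real.exp (C₁ * R) * (1 + |s.im|) ^ n)
    (h4 : ∀ s : ℂ, 1 / 2 + κ / R ≤ s.re → s.re ≤ 2 → ∑ i ∈ I, ‖F i s * M i s - 1‖ ^ 2 ≤
      P * Real.exp (-(β * R * (s.re - 1 / 2))) * (1 + |s.im|) ^ E)
    {t ρ : ℝ} {k : ℕ} (hρ1 : κ + 1 ≤ ρ) (hρ2 : ρ ≤ 7 * R / 64) {J : Finset ι} (hJ : J ⊆ I)
    (hk : ∀ i ∈ J, Dv (F i) k (pt (1 / 2) t) (1 / R)) :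
    (J.card : ℝ) ≤ 2 * (4 * (K1 A (n + E) * P * (2 + |t|) ^ (2 * (n + E)) *
      Real.exp (32 / 7 * C₁ * (κ + 4 * ρ)) * ((3 / 7) ^ k) ^ 2) +
      P * Real.exp (-(β * ρ)) * (1 + |t|) ^ E) := by
  have hR0 : 0 < R := by linarith
  have hρ0 : 0 < ρ := by linarith
  have hP0 : 0 ≤ P := (Nat.cast_nonneg _).trans hP
  have hK0 : 0 ≤ K1 A (n + E) := by linarith [K1_ge hA (n + E)]
  have hρR : ρ / R ≤ 7 / 64 := by
    rw [div_le_iff₀ hR0]
    linarith
  have hρR0 : 0 < ρ / R := by positivity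
  set s₁ : ℂ := pt (1 / 2 + ρ / R) t with hs₁
  have key := dv_gen J (fun i s => F i s * M i s) (s₁ := s₁) (r := 5 * ρ / (2 * R))
    (a := (ρ + 1) / R) (b := (4 * ρ - 1) / R)
    (B := K1 A (n + E) * P * (2 + |t|) ^ (2 * (n + E)) * Real.exp (32 / 7 * C₁ * (κ + 4 * ρ)))
    (k := k) (by positivity) (by positivity) (div_pos (by linarith) hR0)
    (le_of_eq (by field_simp; ring)) (fun i hi => ?_) (fun θ => ?_)
  · have hab : (ρ + 1) / R / ((4 * ρ - 1) / R) ≤ 3 / 7 := by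
      rw [div_div_div_cancel_right₀ hR0.ne', div_le_iff₀ (by linarith)]
      linarith
    have hab0 : 0 ≤ (ρ + 1) / R / ((4 * ρ - 1) / R) :=
      div_nonneg (by positivity) (div_nonneg (by linarith) hR0.le)
    have h5 : ∑ i ∈ J, ‖F i s₁ * M i s₁‖ ^ 2 ≤ 4 * (K1 A (n + E) * P * (2 + |t|) ^ (2 * (n + E)) *
        Real.exp (32 / 7 * C₁ * (κ + 4 * ρ)) * ((3 / 7) ^ k) ^ 2) := by
      refine key.trans ?_
      gcongr
    have h6 : ∑ i ∈ J, ‖F i s₁ * M i s₁ - 1‖ ^ 2 ≤ P * Real.exp (-(β * ρ)) * (1 + |t|) ^ E := by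
      have h7 := h4 s₁ (by
        rw [hs₁, pt_re]
        have : κ / R ≤ ρ / R := by
          apply div_le_div_of_nonneg_right (by linarith) hR0.le
        linarith) (by
        rw [hs₁, pt_re]
        linarith)
      have h8 : β * R * (s₁.re - 1 / 2) = β * ρ := by
        rw [hs₁, pt_re]
        field_simp
        ring
      rw [h8, hs₁, pt_im, ← hs₁] at h7
      exact (Finset.sum_le_sum_of_subset_of_nonneg hJ fun _ _ _ => by positivity).trans h7
    have h7 : (J.card : ℝ) * (1 / 2) ≤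
        ∑ i ∈ J, (‖F i s₁ * M i s₁‖ ^ 2 + ‖F i s₁ * M i s₁ - 1‖ ^ 2) := by
      have h8 := Finset.sum_le_sum (s := J) (f := fun _ => (1 / 2 : ℝ))
        (g := fun i => ‖F i s₁ * M i s₁‖ ^ 2 + ‖F i s₁ * M i s₁ - 1‖ ^ 2) (fun i _ => by
          have h9 : 1 ≤ ‖F i s₁ * M i s₁‖ + ‖F i s₁ * M i s₁ - 1‖ := by
            have := norm_sub_le (F i s₁ * M i s₁) (F i s₁ * M i s₁ - 1)
            rwa [sub_sub_cancel, norm_one] at this
          nlinarith [sq_nonneg (‖F i s₁ * M i s₁‖ - ‖F i s₁ * M i s₁ - 1‖)])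
      rwa [Finset.sum_const, nsmul_eq_mul] at h8
    rw [Finset.sum_add_distrib] at h7
    linarith
  · have h5 := (hk i hi).mul (hM i) (G := fun s => F i s * M i s) (fun _ => rfl)
    refine h5.move ?_
    have e1 : pt (1 / 2) t - s₁ = ((-(ρ / R) : ℝ) : ℂ) := by
      rw [hs₁]
      apply Complex.ext
      · simp
      · simp
    rw [e1, Complex.norm_real, Real.norm_eq_abs, abs_neg, abs_of_pos hρR0, ← add_div]
  · set z : ℂ := circleMap s₁ (2 * (5 * ρ / (2 * R))) θ with hz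
    have h5 : ‖z - s₁‖ = 5 * (ρ / R) := by
      rw [hz, circleMap_sub_center, norm_circleMap_zero, abs_of_pos (by positivity)]
      field_simp
    have h6 := (Complex.abs_re_le_norm (z - s₁)).trans h5.le
    have h7 := (Complex.abs_im_le_norm (z - s₁)).trans h5.le
    rw [sub_re, hs₁, pt_re] at h6
    rw [sub_im, hs₁, pt_im] at h7
    rw [abs_le] at h6
    have h8 := ms hκ hβ hC₁ hA I F M hR hF hM hP h3 h4 (s := z) (by linarith [h6.1])
      (by linarith [h6.2])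
    refine (Finset.sum_le_sum_of_subset_of_nonneg hJ fun _ _ _ => by positivity).trans
      (h8.trans ?_)
    have h9 : 1 + |z.im| ≤ 2 + |t| := by
      have := abs_add_le (z.im - t) t
      rw [sub_add_cancel] at this
      linarith
    have h10 : R * max 0 (1 / 2 - z.re) ≤ 4 * ρ := by
      have h11 : max 0 (1 / 2 - z.re) ≤ 4 * (ρ / R) := max_le (by positivity) (by linarith [h6.1])
      calc R * max 0 (1 / 2 - z.re) ≤ R * (4 * (ρ / R)) := mul_le_mul_of_nonneg_left h11 hR0.le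
        _ = 4 * ρ := by field_simp
    gcongr

/-- Jensen's inequality -/
theorem jensen {F : ℂ → ℂ} {k n : ℕ} {t R A : ℝ} (hA : 1 ≤ A) (hR : 16 ≤ R)
    (h1 : ∀ s : ℂ, 1 / 16 ≤ s.re → ‖F s‖ ≤ A * Real.exp R * (1 + |s.im|) ^ n)
    (h2 : ∀ s : ℂ, 2 ≤ s.re → A⁻¹ ≤ ‖F s‖) (hk : Dv F k (pt (1 / 2) t) (1 / R)) :
    (31 / 25 : ℝ) ^ k ≤ A ^ 2 * Real.exp R * (3 + |t|) ^ n := by
  obtain ⟨z, H, hH, hz, hF⟩ := hk
  set s₂ : ℂ := pt 2 t with hs₂
  have hA0 : 0 < A := by linarith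
  have hzd : ∀ j < k, ‖z j - s₂‖ ≤ 25 / 16 := by
    intro j hj
    have h3 := norm_add_le (z j - pt (1 / 2) t) (pt (1 / 2) t - s₂)
    rw [sub_add_sub_cancel] at h3
    have e1 : pt (1 / 2) t - s₂ = ((-(3 / 2) : ℝ) : ℂ) := by
      rw [hs₂]
      apply Complex.ext
      · simp
        norm_num
      · simp
    rw [e1, Complex.norm_real, Real.norm_eq_abs, abs_neg, abs_of_pos (by norm_num)] at h3
    have h4 : 1 / R ≤ 1 / 16 := one_div_le_one_div_of_le (by norm_num) hR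
    linarith [hz j hj]
  set Kf : ℂ → ℂ := fun s => (∏ j ∈ range k, ((31 / 16 : ℂ) - (s - s₂) * conj (z j - s₂) /
    (31 / 16 : ℂ))) * H s with hKf
  have hKd : Differentiable ℂ Kf := by
    have h4 : Differentiable ℂ fun s : ℂ => ∏ j ∈ range k, ((31 / 16 : ℂ) -
        (s - s₂) * conj (z j - s₂) / (31 / 16 : ℂ)) := by fun_prop
    exact h4.mul hH
  have hfac : ∀ (s : ℂ), ‖s - s₂‖ = 31 / 16 → ∀ j, ‖(31 / 16 : ℂ) - (s - s₂) *
      conj (z j - s₂) / (31 / 16 : ℂ)‖ = ‖s - z j‖ := by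
    intro s hs j
    have e1 : (s - s₂) * conj (s - s₂) = (31 / 16 : ℂ) ^ 2 := by
      rw [Complex.mul_conj, Complex.normSq_eq_norm_sq, hs]
      push_cast
      rfl
    have e2 : (31 / 16 : ℂ) - (s - s₂) * conj (z j - s₂) / (31 / 16 : ℂ) =
        (s - s₂) * conj (s - z j) / (31 / 16 : ℂ) := by
      have e3 : conj (s - z j) = conj (s - s₂) - conj (z j - s₂) := by
        rw [← map_sub]
        congr 1
        ring
      rw [e3, mul_sub, e1]
      field_simp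
    rw [e2, norm_div, norm_mul, RCLike.norm_conj, hs]
    have e4 : ‖(31 / 16 : ℂ)‖ = 31 / 16 := by
      rw [norm_div]
      norm_num
    rw [e4]
    field_simp
  have hcirc : ∀ s ∈ frontier (Metric.ball s₂ (31 / 16 : ℝ)),
      ‖Kf s‖ ≤ A * Real.exp R * (3 + |t|) ^ n := by
    intro s hs
    rw [frontier_ball s₂ (by norm_num)] at hs
    have hs' : ‖s - s₂‖ = 31 / 16 := by
      rw [← dist_eq_norm]
      exact hs
    have e1 : ‖Kf s‖ = ‖F s‖ := by
      rw [hF s, hKf]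
      simp only
      rw [norm_mul, norm_mul, norm_prod, norm_prod]
      congr 1
      exact Finset.prod_congr rfl fun j _ => hfac s hs' j
    rw [e1]
    have h6 := (Complex.abs_re_le_norm (s - s₂)).trans hs'.le
    have h7 := (Complex.abs_im_le_norm (s - s₂)).trans hs'.le
    rw [sub_re, hs₂, pt_re, abs_le] at h6
    rw [sub_im, hs₂, pt_im] at h7
    refine (h1 s (by linarith [h6.1])).trans ?_
    have h9 : 1 + |s.im| ≤ 3 + |t| := by
      have := abs_add_le (s.im - t) t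
      rw [sub_add_cancel] at this
      linarith
    gcongr
  have hmax := Complex.norm_le_of_forall_mem_frontier_norm_le Metric.isBounded_ball
    hKd.diffContOnCl hcirc (z := s₂) (subset_closure (Metric.mem_ball_self (by norm_num)))
  have hKs : ‖Kf s₂‖ = (31 / 16) ^ k * ‖H s₂‖ := by
    rw [hKf]
    simp only [sub_self, zero_mul, zero_div, sub_zero]
    rw [norm_mul, Finset.prod_const, Finset.card_range, norm_pow]
    congr 2
    rw [norm_div]
    norm_num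
  have hFs : ‖F s₂‖ ≤ (25 / 16) ^ k * ‖H s₂‖ := by
    rw [hF s₂, norm_mul, norm_prod]
    refine mul_le_mul_of_nonneg_right ?_ (norm_nonneg _)
    have h3 : ∏ j ∈ range k, ‖s₂ - z j‖ ≤ ∏ _j ∈ range k, (25 / 16 : ℝ) :=
      Finset.prod_le_prod (fun _ _ => norm_nonneg _) fun j hj => by
        rw [norm_sub_rev]
        exact hzd j (Finset.mem_range.1 hj)
    rwa [Finset.prod_const, Finset.card_range] at h3
  have hlow := h2 s₂ (by rw [hs₂, pt_re])
  have e5 : (31 / 16 : ℝ) ^ k = (31 / 25) ^ k * (25 / 16) ^ k := by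
    rw [← mul_pow]
    norm_num
  rw [hKs, e5] at hmax
  have h8 : (31 / 25 : ℝ) ^ k * A⁻¹ ≤ A * Real.exp R * (3 + |t|) ^ n := by
    calc (31 / 25 : ℝ) ^ k * A⁻¹ ≤ (31 / 25) ^ k * ((25 / 16) ^ k * ‖H s₂‖) :=
          mul_le_mul_of_nonneg_left (hlow.trans hFs) (by positivity)
      _ = (31 / 25) ^ k * (25 / 16) ^ k * ‖H s₂‖ := by ring
      _ ≤ _ := hmax
  calc (31 / 25 : ℝ) ^ k = ((31 / 25 : ℝ) ^ k * A⁻¹) * A := by
        rw [mul_assoc, inv_mul_cancel₀ hA0.ne', mul_one]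
    _ ≤ (A * Real.exp R * (3 + |t|) ^ n) * A := mul_le_mul_of_nonneg_right h8 hA0.le
    _ = _ := by ring

/-- the tail of the number of zeros -/
theorem ord (κ β C₁ A : ℝ) (E n : ℕ) (hκ : 1 ≤ κ) (hβ : 0 < β) (hC₁ : 0 ≤ C₁) (hA : 1 ≤ A) :
    ∃ (c C R₀ : ℝ) (E' : ℕ), 0 < c ∧ 1 ≤ C ∧ 1 ≤ R₀ ∧
    ∀ {ι : Type} (I : Finset ι) (F M : ι → ℂ → ℂ) (R P : ℝ), R₀ ≤ R →
      (∀ i, Differentiable ℂ (F i)) → (∀ i, Differentiable ℂ (M i)) → (I.card : ℝ) ≤ P →
      (∀ i ∈ I, ∀ s : ℂ, 1 / 16 ≤ s.re → ‖F i s‖ ≤ A * Real.exp R * (1 + |s.im|) ^ n) →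
      (∀ i ∈ I, ∀ s : ℂ, 2 ≤ s.re → A⁻¹ ≤ ‖F i s‖) →
      (∀ i ∈ I, ∀ s : ℂ, 1 / 16 ≤ s.re →
        ‖F i s * M i s‖ ≤ A * Real.exp (C₁ * R) * (1 + |s.im|) ^ n) →
      (∀ s : ℂ, 1 / 2 + κ / R ≤ s.re → s.re ≤ 2 → ∑ i ∈ I, ‖F i s * M i s - 1‖ ^ 2 ≤
        P * Real.exp (-(β * R * (s.re - 1 / 2))) * (1 + |s.im|) ^ E) →
      ∀ (t : ℝ) (k : ℕ) (J : Finset ι), J ⊆ I → (∀ i ∈ J, Dv (F i) k (pt (1 / 2) t) (1 / R)) →
        (J.card : ℝ) ≤ C * P * (1 + |t|) ^ E' * Real.exp (-(c * k)) := by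
  set K2 : ℝ := 32 / 7 * C₁ with hK2
  have hK20 : 0 ≤ K2 := by positivity
  set L7 : ℝ := Real.log (7 / 3) with hL7
  have hL70 : 0 < L7 := Real.log_pos (by norm_num)
  set c₁ : ℝ := min 1 (L7 / (4 * K2 + 1)) with hc₁
  have hc₁0 : 0 < c₁ := lt_min one_pos (by positivity)
  have hc₁1 : c₁ ≤ 1 := min_le_left _ _
  have hc₁2 : 4 * K2 * c₁ ≤ L7 := by
    have h1 : c₁ ≤ L7 / (4 * K2 + 1) := min_le_right _ _
    rw [le_div_iff₀ (by positivity)] at h1
    linarith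
  set c₂ : ℝ := min L7 (β * c₁) with hc₂
  have hc₂0 : 0 < c₂ := lt_min hL70 (by positivity)
  have hc₂1 : c₂ ≤ L7 := min_le_left _ _
  have hc₂2 : c₂ ≤ β * c₁ := min_le_right _ _
  set L : ℝ := Real.log (31 / 25) with hL
  have hL0 : 0 < L := Real.log_pos (by norm_num)
  set c₃ : ℝ := min 1 (7 * c₂ / (64 * c₁)) with hc₃
  have hc₃0 : 0 < c₃ := lt_min one_pos (by positivity)
  have hc₃1 : c₃ ≤ 1 := min_le_left _ _
  have hc₃2 : c₃ ≤ 7 * c₂ / (64 * c₁) := min_le_right _ _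
  set c : ℝ := min c₂ (c₃ * L) with hc
  have hc0 : 0 < c := lt_min hc₂0 (by positivity)
  have hcc₂ : c ≤ c₂ := min_le_left _ _
  have hcc₃ : c ≤ c₃ * L := min_le_right _ _
  set K : ℝ := K1 A (n + E) with hK
  have hK4 : 4 ≤ K := K1_ge hA (n + E)
  set N : ℕ := 2 * (n + E) + E with hN
  set C₂ : ℝ := 8 * K * Real.exp (K2 * κ) * 2 ^ (2 * (n + E)) + 2 with hC₂
  have hC₂0 : 2 ≤ C₂ := by
    rw [hC₂]
    have : 0 ≤ 8 * K * Real.exp (K2 * κ) * 2 ^ (2 * (n + E)) := by positivity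
    linarith
  set D : ℝ := Real.exp c₂ * A ^ 2 * 3 ^ n with hD
  have hD1 : 1 ≤ D := by
    rw [hD]
    exact one_le_mul_of_one_le_of_one_le (one_le_mul_of_one_le_of_one_le
      (Real.one_le_exp hc₂0.le) (one_le_pow₀ hA)) (one_le_pow₀ (by norm_num))
  set D' : ℝ := Real.exp (c * ((κ + 1) / c₁)) with hD'
  have hD'1 : 1 ≤ D' := Real.one_le_exp (by positivity)
  refine ⟨c, C₂ * D + D', 64 * (κ + 2), N + n, hc0, by nlinarith, by linarith, ?_⟩
  intro ι I F M R P hR hF hM hP h1 h2 h3 h4 t k J hJ hk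
  have hP0 : 0 ≤ P := (Nat.cast_nonneg _).trans hP
  have hR0 : 0 < R := by linarith
  have hκR : κ ≤ R := by linarith
  have ht1 : 1 ≤ 1 + |t| := by linarith [abs_nonneg t]
  have hk0 : (0 : ℝ) ≤ k := Nat.cast_nonneg k
  -- the middle range
  have hmid : ∀ k' : ℕ, κ + 1 ≤ c₁ * k' → c₁ * k' ≤ 7 * R / 64 → k' ≤ k →
      (J.card : ℝ) ≤ C₂ * P * (1 + |t|) ^ N * Real.exp (-(c₂ * k')) := by
    intro k' hk1 hk2 hkk
    have h5 := mid hκ hβ hC₁ hA I F M hκR hF hM hP h3 h4 hk1 hk2 hJ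
      (fun i hi => (hk i hi).le hkk)
    refine h5.trans ?_
    rw [← hK, ← hK2]
    have hk'0 : (0 : ℝ) ≤ k' := Nat.cast_nonneg k'
    have e1 : ((3 / 7 : ℝ)) ^ k' = Real.exp (-(L7 * k')) := by
      have : (3 / 7 : ℝ) = Real.exp (-L7) := by
        rw [hL7, Real.exp_neg, Real.exp_log (by norm_num)]
        norm_num
      rw [this, ← Real.exp_nat_mul]
      congr 1
      ring
    have e2 : Real.exp (K2 * (κ + 4 * (c₁ * k'))) * ((3 / 7) ^ k') ^ 2 ≤
        Real.exp (K2 * κ) * Real.exp (-(c₂ * k')) := by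
      rw [e1, ← Real.exp_nat_mul, ← Real.exp_add, ← Real.exp_add]
      refine Real.exp_le_exp.2 ?_
      push_cast
      have g1 : 4 * K2 * c₁ * k' ≤ L7 * k' := mul_le_mul_of_nonneg_right hc₁2 hk'0
      have g2 : c₂ * k' ≤ L7 * k' := mul_le_mul_of_nonneg_right hc₂1 hk'0
      nlinarith
    have e3 : Real.exp (-(β * (c₁ * k'))) ≤ Real.exp (-(c₂ * k')) := by
      refine Real.exp_le_exp.2 ?_
      have g1 : c₂ * k' ≤ β * c₁ * k' := mul_le_mul_of_nonneg_right hc₂2 hk'0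
      linarith
    have e4 : (2 + |t|) ^ (2 * (n + E)) ≤ 2 ^ (2 * (n + E)) * (1 + |t|) ^ N := by
      have g1 : (2 + |t|) ^ (2 * (n + E)) ≤ (2 * (1 + |t|)) ^ (2 * (n + E)) := by
        gcongr
        linarith [abs_nonneg t]
      rw [mul_pow] at g1
      refine g1.trans ?_
      have g2 : (1 + |t|) ^ (2 * (n + E)) ≤ (1 + |t|) ^ N := pow_le_pow_right₀ ht1 (by omega)
      gcongr
    have e5 : (1 + |t|) ^ E ≤ (1 + |t|) ^ N := pow_le_pow_right₀ ht1 (by omega)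
    have g3 : K * P * (2 + |t|) ^ (2 * (n + E)) * Real.exp (K2 * (κ + 4 * (c₁ * k'))) *
        ((3 / 7) ^ k') ^ 2 ≤ K * P * (2 ^ (2 * (n + E)) * (1 + |t|) ^ N) *
          (Real.exp (K2 * κ) * Real.exp (-(c₂ * k'))) := by
      rw [mul_assoc (K * P * (2 + |t|) ^ (2 * (n + E)))]
      gcongr
    have g4 : P * Real.exp (-(β * (c₁ * k'))) * (1 + |t|) ^ E ≤
        P * Real.exp (-(c₂ * k')) * (1 + |t|) ^ N := by gcongr
    calc 2 * (4 * (K * P * (2 + |t|) ^ (2 * (n + E)) * Real.exp (K2 * (κ + 4 * (c₁ * k'))) *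
          ((3 / 7) ^ k') ^ 2) + P * Real.exp (-(β * (c₁ * k'))) * (1 + |t|) ^ E)
        ≤ 2 * (4 * (K * P * (2 ^ (2 * (n + E)) * (1 + |t|) ^ N) *
          (Real.exp (K2 * κ) * Real.exp (-(c₂ * k')))) +
          P * Real.exp (-(c₂ * k')) * (1 + |t|) ^ N) := by linarith
      _ = _ := by
        rw [hC₂]
        ring
  have hDD : 0 ≤ D' := by linarith
  have hCD : C₂ ≤ C₂ * D := le_mul_of_one_le_right (by linarith) hD1
  have hck : Real.exp (-(c₂ * k)) ≤ Real.exp (-(c * k)) := by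
    refine Real.exp_le_exp.2 ?_
    have := mul_le_mul_of_nonneg_right hcc₂ hk0
    linarith
  rcases lt_or_ge (c₁ * k) (κ + 1) with hA1 | hA1
  · -- small `k`
    have h5 : (J.card : ℝ) ≤ P :=
      le_trans (by exact_mod_cast Finset.card_le_card hJ) hP
    have h6 : 1 ≤ D' * Real.exp (-(c * k)) := by
      rw [hD', ← Real.exp_add]
      apply Real.one_le_exp
      have h7 : (k : ℝ) ≤ (κ + 1) / c₁ := by
        rw [le_div_iff₀ hc₁0]
        linarith
      have := mul_le_mul_of_nonneg_left h7 hc0.le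
      linarith
    have h7 : (1 : ℝ) ≤ (1 + |t|) ^ (N + n) := one_le_pow₀ ht1
    calc (J.card : ℝ) ≤ P * 1 * 1 := by linarith
      _ ≤ P * (1 + |t|) ^ (N + n) * (D' * Real.exp (-(c * k))) := by gcongr
      _ ≤ P * (1 + |t|) ^ (N + n) * ((C₂ * D + D') * Real.exp (-(c * k))) := by
          gcongr
          have : 0 ≤ C₂ * D := by positivity
          linarith
      _ = _ := by ring
  rcases le_or_gt (c₁ * k) (7 * R / 64) with hA2 | hA2
  · -- the middle range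
    refine (hmid k hA1 hA2 le_rfl).trans ?_
    have h6 : (1 + |t|) ^ N ≤ (1 + |t|) ^ (N + n) := pow_le_pow_right₀ ht1 (by omega)
    have h7 : C₂ ≤ C₂ * D + D' := by linarith
    gcongr
  · -- large `k`
    rcases J.eq_empty_or_nonempty with rfl | ⟨i, hi⟩
    · rw [Finset.card_empty, Nat.cast_zero]
      positivity
    have hj := jensen hA (by linarith) (h1 i (hJ hi)) (h2 i (hJ hi)) (hk i hi)
    set k₁ : ℕ := ⌊7 * R / (64 * c₁)⌋₊ with hk₁
    have hpos : 0 ≤ 7 * R / (64 * c₁) := by positivity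
    have hf1 : (k₁ : ℝ) ≤ 7 * R / (64 * c₁) := Nat.floor_le hpos
    have hf2 : 7 * R / (64 * c₁) < k₁ + 1 := Nat.lt_floor_add_one _
    have hmul : c₁ * (7 * R / (64 * c₁)) = 7 * R / 64 := by
      field_simp
    have hk₁1 : c₁ * k₁ ≤ 7 * R / 64 := by
      rw [← hmul]
      exact mul_le_mul_of_nonneg_left hf1 hc₁0.le
    have hk₁2 : κ + 1 ≤ c₁ * k₁ := by
      have := mul_lt_mul_of_pos_left hf2 hc₁0
      rw [hmul, mul_add, mul_one] at this
      linarith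
    have hk₁k : k₁ ≤ k := by
      have h5 : 7 * R / (64 * c₁) < k := by
        rw [div_lt_iff₀ (by positivity)]
        linarith
      have h6 : (k₁ : ℝ) < k := lt_of_le_of_lt hf1 h5
      exact_mod_cast h6.le
    refine (hmid k₁ hk₁2 hk₁1 hk₁k).trans ?_
    -- the exponential
    have h5 : Real.exp (-(c₂ * k₁)) ≤ Real.exp c₂ * Real.exp (-(c₃ * R)) := by
      rw [← Real.exp_add]
      refine Real.exp_le_exp.2 ?_
      have h6 : c₂ * (7 * R / (64 * c₁)) ≤ c₂ * (k₁ + 1) := mul_le_mul_of_nonneg_left hf2.le hc₂0.le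
      have h7 : c₃ * R ≤ 7 * c₂ / (64 * c₁) * R := mul_le_mul_of_nonneg_right hc₃2 hR0.le
      have h8 : 7 * c₂ / (64 * c₁) * R = c₂ * (7 * R / (64 * c₁)) := by ring
      linarith
    have hX1 : 1 ≤ A ^ 2 * (3 + |t|) ^ n :=
      one_le_mul_of_one_le_of_one_le (one_le_pow₀ hA) (one_le_pow₀ (by linarith [abs_nonneg t]))
    have h6 : Real.exp (-(c₃ * R)) ≤ A ^ 2 * (3 + |t|) ^ n * Real.exp (-(c₃ * L * k)) := by
      have g1 : Real.exp (L * k) ≤ A ^ 2 * (3 + |t|) ^ n * Real.exp R := by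
        have : Real.exp (L * k) = (31 / 25) ^ k := by
          rw [mul_comm, Real.exp_nat_mul, hL, Real.exp_log (by norm_num)]
        rw [this]
        linarith
      have g2 : Real.exp (-R) ≤ A ^ 2 * (3 + |t|) ^ n * Real.exp (-(L * k)) := by
        rw [Real.exp_neg, Real.exp_neg, ← div_eq_mul_inv, le_div_iff₀ (Real.exp_pos _),
          inv_mul_le_iff₀ (Real.exp_pos _)]
        linarith
      have g3 := Real.rpow_le_rpow (Real.exp_pos _).le g2 hc₃0.le
      rw [Real.mul_rpow (by positivity) (Real.exp_pos _).le, ← Real.exp_mul, ← Real.exp_mul] at g3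
      have g4 : (A ^ 2 * (3 + |t|) ^ n) ^ c₃ ≤ A ^ 2 * (3 + |t|) ^ n := by
        have := Real.rpow_le_rpow_of_exponent_le hX1 hc₃1
        rwa [Real.rpow_one] at this
      have e1 : -(c₃ * R) = -R * c₃ := by ring
      have e2 : -(c₃ * L * k) = -(L * k) * c₃ := by ring
      rw [e1, e2]
      exact g3.trans (mul_le_mul_of_nonneg_right g4 (Real.exp_pos _).le)
    have h7 : Real.exp (-(c₃ * L * k)) ≤ Real.exp (-(c * k)) := by
      refine Real.exp_le_exp.2 ?_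
      have := mul_le_mul_of_nonneg_right hcc₃ hk0
      linarith
    have h8 : (3 + |t|) ^ n ≤ 3 ^ n * (1 + |t|) ^ n := by
      rw [← mul_pow]
      gcongr
      linarith [abs_nonneg t]
    have h9 : Real.exp (-(c₂ * k₁)) ≤ D * (1 + |t|) ^ n * Real.exp (-(c * k)) := by
      calc Real.exp (-(c₂ * k₁)) ≤ Real.exp c₂ * (A ^ 2 * (3 + |t|) ^ n *
            Real.exp (-(c₃ * L * k))) := h5.trans (mul_le_mul_of_nonneg_left h6 (Real.exp_pos _).le)
        _ ≤ Real.exp c₂ * (A ^ 2 * (3 ^ n * (1 + |t|) ^ n) * Real.exp (-(c * k))) := by gcongr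
        _ = _ := by rw [hD]; ring
    calc C₂ * P * (1 + |t|) ^ N * Real.exp (-(c₂ * k₁))
        ≤ C₂ * P * (1 + |t|) ^ N * (D * (1 + |t|) ^ n * Real.exp (-(c * k))) := by gcongr
      _ = (C₂ * D) * P * (1 + |t|) ^ (N + n) * Real.exp (-(c * k)) := by
          rw [pow_add (1 + |t|) N n]
          ring
      _ ≤ _ := by
          gcongr
          linarith

end Pool.Agent.N160.CZ
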