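import Pool.Agent.N784.CZ.Stm2
import Pool.Agent.N160.CZ.Ord

/-! CZ/E2, for helper784, by helper160 -/

set_option autoImplicit false

namespace Pool.Agent.N160.CZ

theorem t_ord : Pool.Agent.N784.CZ.StOrd := fun κ β C₁ A E n hκ hβ hC₁ hA =>
  ord κ β C₁ A E n hκ hβ hC₁ hA

end Pool.Agent.N160.CZ
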